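import Pool.Agent.Helper30_Simp.Stmts

/-!
# Initial forms are smooth in the torus
-/

set_option autoImplicit false

namespace Pool.Agent.Helper30_Simp.H70

open Finset

section

variable {k : Type} [Field k] {σ : Type} [Fintype σ]

omit [Fintype σ] in
theorem coeff_part {f : MvPolynomial σ k} {I : Finset (σ →₀ ℕ)} {α : σ →₀ ℕ} (h : α ∈ I) :
    (part f I).coeff α = f.coeff α := by
  classical
  unfold part
  rw [MvPolynomial.coeff_sum, Finset.sum_eq_single α]
  · rw [MvPolynomial.coeff_monomial, if_pos rfl]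
  · intro β _ hβ
    rw [MvPolynomial.coeff_monomial, if_neg hβ]
  · intro h'
    exact absurd h h'

/-- a dual vector -/
theorem exists_dual {ι V : Type*} [AddCommGroup V] [Module ℚ V] {v : ι → V}
    (h : LinearIndependent ℚ v) (i : ι) :
    ∃ l : V →ₗ[ℚ] ℚ, l (v i) = 1 ∧ ∀ j, j ≠ i → l (v j) = 0 := by
  have h1 : v i ∉ Submodule.span ℚ (v '' {j | j ≠ i}) := by
    intro h2
    exact h.notMem_span_image (s := {j | j ≠ i}) (x := i) (by simp) h2
  obtain ⟨l, hl1, hl2⟩ := Submodule.exists_dual_map_eq_bot_of_notMem h1 inferInstance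
  refine ⟨(l (v i))⁻¹ • l, ?_, fun j hj => ?_⟩
  · rw [LinearMap.smul_apply, smul_eq_mul, inv_mul_cancel₀ hl1]
  · have h3 : l (v j) ∈ Submodule.map l (Submodule.span ℚ (v '' {j | j ≠ i})) :=
      Submodule.mem_map_of_mem (Submodule.subset_span ⟨j, hj, rfl⟩)
    rw [hl2, Submodule.mem_bot] at h3
    rw [LinearMap.smul_apply, h3, smul_zero]

/-- a power of the product of the variables is divisible by a monomial -/
theorem prod_mem_radical {K : Ideal (MvPolynomial σ k)} {α : σ →₀ ℕ}
    (h : MvPolynomial.monomial α (1 : k) ∈ K) : ∏ i, MvPolynomial.X i ∈ K.radical := by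
  refine ⟨∑ i, α i, ?_⟩
  have h1 : (∏ i, (MvPolynomial.X i : MvPolynomial σ k)) ^ (∑ i, α i)
      = MvPolynomial.monomial α 1 * ∏ i, MvPolynomial.X i ^ ((∑ j, α j) - α i) := by
    rw [MvPolynomial.monomial_eq, Finsupp.prod_fintype _ _ (fun i => pow_zero _), map_one, one_mul,
      ← Finset.prod_mul_distrib, ← Finset.prod_pow]
    refine Finset.prod_congr rfl fun i _ => ?_
    rw [← pow_add]
    congr 1
    have : α i ≤ ∑ j, α j := Finset.single_le_sum (fun j _ => Nat.zero_le (α j)) (mem_univ i)
    omega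
  rw [h1]
  exact Ideal.mul_mem_right _ _ h

theorem torusSmooth_of_indep [CharZero k] {f : MvPolynomial σ k} {I : Finset (σ →₀ ℕ)}
    (hI : I.Nonempty) (hf : I ⊆ f.support)
    (h : LinearIndependent ℚ (fun α : I => fun i => ((α : σ →₀ ℕ) i : ℚ))) :
    TorusSmooth (part f I) := by
  classical
  obtain ⟨α, hα⟩ := hI
  obtain ⟨l, hl1, hl2⟩ := exists_dual h ⟨α, hα⟩
  have hl : ∀ β : σ →₀ ℕ, l (fun i => (β i : ℚ)) = ∑ i, l (Pi.single i 1) * (β i : ℚ) := by
    intro β
    have h1 : (fun i => (β i : ℚ)) = ∑ i, (β i : ℚ) • (Pi.single i (1 : ℚ) : σ → ℚ) := by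
      funext j
      rw [Finset.sum_apply, Finset.sum_eq_single j]
      · simp
      · intro i _ hi
        rw [Pi.smul_apply, Pi.single_eq_of_ne hi.symm, smul_zero]
      · intro h
        exact absurd (mem_univ _) h
    rw [h1, map_sum]
    refine Finset.sum_congr rfl fun i _ => ?_
    rw [map_smul, smul_eq_mul, mul_comm]
  unfold TorusSmooth
  refine prod_mem_radical (α := α) ?_
  have hcα : f.coeff α ≠ 0 := MvPolynomial.mem_support_iff.1 (hf hα)
  have key : MvPolynomial.monomial α (1 : k) = MvPolynomial.C (f.coeff α)⁻¹ *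
      ∑ j, (MvPolynomial.C ((l (Pi.single j 1) : ℚ) : k) * MvPolynomial.X j) *
        MvPolynomial.pderiv j (part f I) := by
    have h1 : ∀ j, (MvPolynomial.C ((l (Pi.single j 1) : ℚ) : k) * MvPolynomial.X j) *
        MvPolynomial.pderiv j (part f I)
        = ∑ β ∈ I, MvPolynomial.monomial β
          ((((l (Pi.single j 1) * (β j : ℚ) : ℚ) : k)) * f.coeff β) := by
      intro j
      unfold part
      rw [map_sum, Finset.mul_sum]
      refine Finset.sum_congr rfl fun β _ => ?_
      rw [mul_assoc, MvPolynomial.X_mul_pderiv_monomial, MvPolynomial.smul_monomial,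
        MvPolynomial.C_mul_monomial]
      congr 1
      rw [nsmul_eq_mul]
      push_cast
      ring
    have h2 : ∀ β : σ →₀ ℕ, ∑ j, MvPolynomial.monomial β
          ((((l (Pi.single j 1) * (β j : ℚ) : ℚ) : k)) * f.coeff β)
        = MvPolynomial.monomial β (((l (fun i => (β i : ℚ)) : ℚ) : k) * f.coeff β) := by
      intro β
      rw [← map_sum, ← Finset.sum_mul, hl]
      push_cast
      rfl
    simp_rw [h1]
    rw [Finset.sum_comm]
    simp_rw [h2]
    rw [Finset.sum_eq_single α]
    · rw [show l (fun i => (α i : ℚ)) = 1 from hl1, Rat.cast_one, one_mul,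
        MvPolynomial.C_mul_monomial, inv_mul_cancel₀ hcα]
    · intro β hβ hne
      have h3 : l (fun i => (β i : ℚ)) = 0 :=
        hl2 ⟨β, hβ⟩ (fun h => hne (congrArg Subtype.val h))
      rw [h3, Rat.cast_zero, zero_mul, map_zero]
    · intro h'
      exact absurd hα h'
  rw [key]
  refine Ideal.mul_mem_left _ _ (Ideal.sum_mem _ fun j _ => Ideal.mul_mem_left _ _
    (Ideal.subset_span (Or.inr ⟨j, rfl⟩)))

theorem restr_eq_part (f : MvPolynomial σ k) (I : Finset (σ →₀ ℕ)) (A : Finset σ)
    (hI : ∀ α, α ∈ I ↔ α ∈ f.support ∧ ∀ i ∈ A, α i = 0) : restr A f = part f I := by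
  classical
  have h1 : restr A f = MvPolynomial.aeval (fun i => if i ∈ A then 0 else MvPolynomial.X i)
      f := by
    unfold restr
    congr
  have h2 : ∀ α : σ →₀ ℕ, MvPolynomial.aeval
      (fun i => if i ∈ A then (0 : MvPolynomial σ k) else MvPolynomial.X i)
      (MvPolynomial.monomial α (f.coeff α))
      = if ∀ i ∈ A, α i = 0 then MvPolynomial.monomial α (f.coeff α) else 0 := by
    intro α
    rw [MvPolynomial.aeval_monomial, Finsupp.prod_fintype _ _ (fun i => pow_zero _)]
    split_ifs with h
    · rw [MvPolynomial.monomial_eq, Finsupp.prod_fintype _ _ (fun i => pow_zero _)]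
      congr 1
      refine Finset.prod_congr rfl fun i _ => ?_
      split_ifs with hi
      · rw [h i hi, pow_zero, pow_zero]
      · rfl
    · push Not at h
      obtain ⟨i, hi, hi2⟩ := h
      rw [Finset.prod_eq_zero (mem_univ i), mul_zero]
      rw [if_pos hi, zero_pow hi2]
  rw [h1]
  conv_lhs => rw [MvPolynomial.as_sum f]
  rw [map_sum]
  simp_rw [h2]
  rw [← Finset.sum_filter]
  unfold part
  refine Finset.sum_congr ?_ fun _ _ => rfl
  ext α
  rw [Finset.mem_filter, hI]

theorem ndeg : NdegStmt := by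
  intro k _ _ σ _ f I J u N hS hN h
  classical
  rcases Nat.eq_zero_or_pos N with h0 | h0
  · -- the minimum is zero
    have hI : ∀ α, α ∈ I ↔ α ∈ f.support ∧ ∀ i ∈ univ \ J, α i = 0 := by
      intro α
      constructor
      · intro hα
        refine ⟨h.sub hα, fun i hi => ?_⟩
        have h1 := h.eq α hα
        rw [h0, dot, Finset.sum_eq_zero_iff] at h1
        have h2 := h1 i (mem_univ i)
        rcases Nat.mul_eq_zero.1 h2 with h3 | h3
        · exact absurd ((h.zero i).1 h3) (Finset.mem_sdiff.1 hi).2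
        · exact h3
      · rintro ⟨hα, h1⟩
        by_contra hne
        have h2 := h.lt α hα hne
        have h3 : dot u α = 0 := by
          rw [dot]
          refine Finset.sum_eq_zero fun i _ => ?_
          by_cases hi : i ∈ J
          · rw [(h.zero i).2 hi, zero_mul]
          · rw [h1 i (Finset.mem_sdiff.2 ⟨mem_univ i, hi⟩), Nat.cast_zero, mul_zero]
        omega
    have h1 := restr_eq_part f I (univ \ J) hI
    have h2 := hN (univ \ J)
    rw [h1] at h2
    refine h2 fun h3 => ?_
    obtain ⟨α, hα⟩ := h.ne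
    have h4 := coeff_part (f := f) hα
    rw [h3, MvPolynomial.coeff_zero] at h4
    exact MvPolynomial.mem_support_iff.1 (h.sub hα) h4.symm
  · -- the minimum is positive
    have hle : ∀ β ∈ f.support, N ≤ dot u β := by
      intro β hβ
      by_cases hb : β ∈ I
      · exact (h.eq β hb).ge
      · exact (h.lt β hβ hb).le
    have hcast : ∀ β : σ →₀ ℕ, dot (fun i => (u i : ℝ)) β = ((dot u β : ℕ) : ℝ) := by
      intro β
      rw [dot, dot]
      push_cast
      rfl
    have hface : ∀ β, β ∈ face f.support (fun i => (u i : ℝ)) ↔ β ∈ I := by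
      intro β
      constructor
      · rintro ⟨hβ, h1⟩
        by_contra hb
        obtain ⟨α, hα⟩ := h.ne
        have h2 := h1 α (h.sub hα)
        rw [hcast, hcast, Nat.cast_le, h.eq α hα] at h2
        have h3 := h.lt β hβ hb
        omega
      · intro hβ
        refine ⟨h.sub hβ, fun γ hγ => ?_⟩
        rw [hcast, hcast, Nat.cast_le, h.eq β hβ]
        exact hle γ hγ
    have h1 := hS (fun i => (u i : ℝ)) (fun i => Nat.cast_nonneg _) (fun α hα => by
      rw [hcast]
      have := hle α hα
      have : 0 < dot u α := by omega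
      exact_mod_cast this)
    refine torusSmooth_of_indep h.ne h.sub ?_
    have h2 : LinearIndependent ℝ (fun α : I => fun i => ((α : σ →₀ ℕ) i : ℝ)) :=
      h1.comp (fun α : I => (⟨α.1, (hface α.1).2 α.2⟩ :
        face f.support (fun i => (u i : ℝ)))) (fun a b hab => by
          have := congrArg Subtype.val hab
          exact Subtype.ext this)
    have h3 : LinearIndependent ℚ (fun α : I => fun i => ((α : σ →₀ ℕ) i : ℝ)) :=
      h2.restrict_scalars (R := ℚ) (by
        intro a b hab
        have : ((a : ℚ) • (1 : ℝ)) = b • (1 : ℝ) := hab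
        rw [Rat.smul_one_eq_cast, Rat.smul_one_eq_cast] at this
        exact_mod_cast this)
    let c : (σ → ℚ) →ₗ[ℚ] (σ → ℝ) :=
      { toFun := fun v i => (v i : ℝ)
        map_add' := fun v w => by
          funext i
          simp
        map_smul' := fun r v => by
          funext i
          simp [Rat.smul_def] }
    refine LinearIndependent.of_comp c ?_
    have h4 : (c ∘ fun α : I => fun i => ((α : σ →₀ ℕ) i : ℚ))
        = fun α : I => fun i => ((α : σ →₀ ℕ) i : ℝ) := by
      funext α i
      show (((α : σ →₀ ℕ) i : ℚ) : ℝ) = _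
      norm_cast
    rw [h4]
    exact h3

end

end Pool.Agent.Helper30_Simp.H70
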