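import Pool.Agent.Helper30_Simp.Stmts

/-!
# Stratification of the jets by their orders
-/

set_option autoImplicit false
set_option linter.unusedVariables false

namespace Pool.Agent.Helper30_Simp.H70

open PowerSeries Finset Pool.Agent.Helper6_Mono

section general

variable {k : Type} [Field k] {W : Type} [AddCommGroup W] {β : Type} {wβ : β → W}

/-- the locus where `j` is the first index with `h j ≠ 0`, and `h j` is invertible -/
@[reducible] def str1 (X : Over k W β wβ) {n : ℕ} {wf : Fin n → W} (h : ∀ c, NF X.F (wf c))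
    (j : Fin (n + 1)) : Over k W β wβ :=
  X.sub (fun S _ _ x => (∀ c : Fin n, (c : ℕ) < j → (h c).fn x = 0) ∧
      ∀ c : Fin n, (c : ℕ) = j → IsUnit ((h c).fn x))
    (fun φ c x hx => ⟨fun i hi => by rw [(h i).fn_tw, hx.1 i hi, map_zero, mul_zero],
      fun i hi => by rw [(h i).fn_tw]; exact (chr_isUnit c _).mul ((hx.2 i hi).map φ)⟩)

theorem str1_castSucc (X : Over k W β wβ) {n : ℕ} {wf : Fin n → W} (h : ∀ c, NF X.F (wf c))
    (j : Fin n) : OIso (str1 X h j.castSucc) (X.stp h j) := by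
  refine OIso.mk' (fun S _ _ p => ⟨p.1, fun i hi => p.2.1 i (by simpa using hi), p.2.2 j rfl⟩)
    (fun S _ _ p => ⟨p.1, fun i hi => p.2.1 i (by simpa using hi), fun i hi => ?_⟩)
    (fun S _ _ p => rfl) (fun S _ _ p => rfl) (fun φ c p => rfl) (fun S _ _ p b => rfl)
  have : i = j := Fin.ext hi
  rw [this]
  exact p.2.2

theorem str1_last (X : Over k W β wβ) {n : ℕ} {wf : Fin n → W} (h : ∀ c, NF X.F (wf c)) :
    OIso (str1 X h (Fin.last n)) (X.stz h) := by
  refine OIso.mk' (fun S _ _ p => ⟨p.1, fun i => p.2.1 i i.2⟩)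
    (fun S _ _ p => ⟨p.1, fun i _ => p.2 i, fun i hi => ?_⟩)
    (fun S _ _ p => rfl) (fun S _ _ p => rfl) (fun φ c p => rfl) (fun S _ _ p b => rfl)
  exact absurd hi (by have := i.2; rw [Fin.val_last]; omega)

theorem FT.str1 {X : Over k W β wβ} (hX : FT X.F) {n : ℕ} {wf : Fin n → W}
    (h : ∀ c, NF X.F (wf c)) (j : Fin (n + 1)) : FT (str1 X h j).F := by
  induction j using Fin.lastCases with
  | last =>
    obtain ⟨e, -⟩ := str1_last X h
    exact FT.of_equiv e (FT.stz hX h)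
  | cast j =>
    obtain ⟨e, -⟩ := str1_castSucc X h j
    exact FT.of_equiv e (FT.stp hX h j)

theorem stair1 {wβ : β → QZ} {R : Type*} [CommRing R] {L : Rˣ} (χ : SInv k wβ L) {n : ℕ}
    {X : Over k QZ β wβ} (hX : FT X.F) {wf : Fin n → QZ} (h : ∀ c, NF X.F (wf c)) :
    χ.χ X = ∑ j, χ.χ (str1 X h j) := by
  rw [Fin.sum_univ_castSucc, χ.stair hX h, χ.iso (FT.str1 hX h _) (str1_last X h)]
  congr 1
  refine Finset.sum_congr rfl fun j _ => ?_
  rw [χ.iso (FT.str1 hX h _) (str1_castSucc X h j)]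

/-- the stratum with first indices `u` -/
@[reducible] def strat (X : Over k W β wβ) {m n : ℕ} {wf : Fin m → Fin n → W}
    (h : ∀ i c, NF X.F (wf i c)) (u : Fin m → Fin (n + 1)) : Over k W β wβ :=
  X.sub (fun S _ _ x => ∀ i, (∀ c : Fin n, (c : ℕ) < u i → (h i c).fn x = 0) ∧
      ∀ c : Fin n, (c : ℕ) = u i → IsUnit ((h i c).fn x))
    (fun φ c x hx => fun j => ⟨fun i hi => by rw [(h j i).fn_tw, (hx j).1 i hi, map_zero, mul_zero],
      fun i hi => by rw [(h j i).fn_tw]; exact (chr_isUnit c _).mul (((hx j).2 i hi).map φ)⟩)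

/-- restriction of a function -/
@[reducible] def str1F {X : Over k W β wβ} {n : ℕ} {wf : Fin n → W} (h : ∀ c, NF X.F (wf c))
    (j : Fin (n + 1)) {w : W} (g : NF X.F w) : NF (str1 X h j).F w :=
  ⟨fun x => g.fn x.1, fun φ c x => g.fn_tw φ c x.1⟩

theorem strat_succ (X : Over k W β wβ) {m n : ℕ} {wf : Fin (m + 1) → Fin n → W}
    (h : ∀ i c, NF X.F (wf i c)) (u : Fin (m + 1) → Fin (n + 1)) :
    OIso (strat (str1 X (h 0) (u 0)) (fun i c => str1F (h 0) (u 0) (h i.succ c))
      (fun i => u i.succ)) (strat X h u) := by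
  refine OIso.mk' (fun S _ _ p => ⟨p.1.1, fun i => ?_⟩)
    (fun S _ _ p => ⟨⟨p.1, p.2 0⟩, fun i => p.2 i.succ⟩)
    (fun S _ _ p => rfl) (fun S _ _ p => rfl) (fun φ c p => rfl) (fun S _ _ p b => rfl)
  refine Fin.cases ?_ (fun i => ?_) i
  · exact p.1.2
  · exact p.2 i

theorem FT.strat {m n : ℕ} : ∀ {X : Over k W β wβ} (hX : FT X.F) {wf : Fin m → Fin n → W}
    (h : ∀ i c, NF X.F (wf i c)) (u : Fin m → Fin (n + 1)), FT (strat X h u).F := by
  induction m with
  | zero =>
    intro X hX wf h u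
    have h1 : OIso (H70.strat X h u) X := OIso.mk' (fun S _ _ p => p.1)
      (fun S _ _ p => ⟨p, fun i => i.elim0⟩)
      (fun S _ _ p => rfl) (fun S _ _ p => rfl) (fun φ c p => rfl) (fun S _ _ p b => rfl)
    obtain ⟨e, -⟩ := h1
    exact FT.of_equiv e hX
  | succ m ih =>
    intro X hX wf h u
    obtain ⟨e, -⟩ := (strat_succ X h u).symm
    exact FT.of_equiv e (ih (FT.str1 hX _ _) _ _)

theorem stairs {wβ : β → QZ} {R : Type*} [CommRing R] {L : Rˣ} (χ : SInv k wβ L) {m n : ℕ} :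
    ∀ {X : Over k QZ β wβ} (hX : FT X.F) {wf : Fin m → Fin n → QZ} (h : ∀ i c, NF X.F (wf i c)),
    χ.χ X = ∑ u : Fin m → Fin (n + 1), χ.χ (strat X h u) := by
  induction m with
  | zero =>
    intro X hX wf h
    rw [Fintype.sum_unique]
    exact (χ.iso (FT.strat hX h _) (OIso.mk' (fun S _ _ p => p.1)
      (fun S _ _ p => ⟨p, fun i => i.elim0⟩)
      (fun S _ _ p => rfl) (fun S _ _ p => rfl) (fun φ c p => rfl) (fun S _ _ p b => rfl))).symm
  | succ m ih =>
    intro X hX wf h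
    rw [stair1 χ hX (h 0)]
    rw [← (Fin.consEquiv fun _ : Fin (m + 1) => Fin (n + 1)).sum_comp, Fintype.sum_prod_type]
    refine Finset.sum_congr rfl fun j _ => ?_
    rw [ih (FT.str1 hX (h 0) j) (fun i c => str1F (h 0) j (h i.succ c))]
    refine Finset.sum_congr rfl fun u _ => ?_
    exact χ.iso (FT.strat (FT.str1 hX (h 0) j) _ _)
      (strat_succ X h ((Fin.consEquiv fun _ : Fin (m + 1) => Fin (n + 1)) (j, u)))

end general

section jets

variable {k : Type} [Field k] {σ : Type} [Fintype σ] {W : Type} [AddCommGroup W]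

/-- the coefficients of the jets as functions -/
@[reducible] noncomputable def cf (f : MvPolynomial σ k) (m : ℕ) (ω : W) (hω : m • ω = 0)
    (e : σ ≃ Fin (Fintype.card σ)) (i : Fin (Fintype.card σ)) (c : Fin (m + 1)) :
    NF ((FibK k σ ω m hω).app (Jet f Set.univ m ω)).F ((c : ℕ) • ω) :=
  ⟨fun x => coeff (c : ℕ) (x.1.1.1 (e.symm i)), fun φ d x => coeff_twS ω φ d _ _⟩

theorem strat_iso (f : MvPolynomial σ k) (m : ℕ) (ω : W) (hω : m • ω = 0)
    (e : σ ≃ Fin (Fintype.card σ)) (u : σ → Fin (m + 2)) :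
    OIso (strat ((FibK k σ ω m hω).app (Jet f Set.univ m ω)) (cf f m ω hω e)
      (fun i => u (e.symm i))) (FS f (fun i => (u i : ℕ)) m ω hω) := by
  refine OIso.mk' (fun S _ _ p => ⟨⟨p.1.1.1.1, fun i j hij => ?_⟩, fun i hi => ?_, fun c hc => ?_⟩)
    (fun S _ _ p => ⟨⟨(⟨p.1.1, fun i j hij => ?_⟩, ()), fun a => ?_⟩, fun i => ⟨fun c hc => ?_,
      fun c hc => ?_⟩⟩)
    (fun S _ _ p => rfl) (fun S _ _ p => rfl) (fun φ c p => rfl) (fun S _ _ p b => rfl)
  · -- the support
    by_cases h1 : m < j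
    · exact p.1.1.1.2 i j (Or.inr h1)
    · have h2 : j < u i := by
        by_contra h3
        exact hij ⟨by simpa using h3, by simpa using h1⟩
      have h3 := (p.2 (e i)).1 ⟨j, by omega⟩ (by
        show j < ((u (e.symm (e i)) : Fin (m + 2)) : ℕ)
        rw [Equiv.symm_apply_apply]
        exact h2)
      have h4 : coeff j (p.1.1.1.1 (e.symm (e i))) = 0 := h3
      rwa [Equiv.symm_apply_apply] at h4
  · -- the units
    have hi' : (u i : ℕ) ≤ m := hi
    have h3 := (p.2 (e i)).2 ⟨(u i : ℕ), by omega⟩ (by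
      show ((u i : Fin (m + 2)) : ℕ) = ((u (e.symm (e i)) : Fin (m + 2)) : ℕ)
      rw [Equiv.symm_apply_apply])
    have h4 : IsUnit (coeff (u i : ℕ) (p.1.1.1.1 (e.symm (e i)))) := h3
    rwa [Equiv.symm_apply_apply] at h4
  · -- the value of `f`
    have h3 := p.1.2 ⟨c, by omega⟩
    have h4 : (if c ≤ m then coeff c (MvPolynomial.aeval p.1.1.1.1 f) else 0)
      - (if c = m then 1 else 0) = 0 := h3
    rw [if_pos hc, sub_eq_zero] at h4
    exact h4
  · -- the support
    refine p.1.2 i j fun h1 => ?_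
    rcases hij with h2 | h2
    · exact h2 (Set.mem_univ i)
    · have := h1.2
      simp only at this
      omega
  · have h3 := p.2.2 (a : ℕ) (by have := a.2; omega)
    show (if (a : ℕ) ≤ m then coeff (a : ℕ) (MvPolynomial.aeval p.1.1 f) else 0)
      - (if (a : ℕ) = m then 1 else 0) = 0
    rw [if_pos (by have := a.2; omega), h3, sub_self]
  · refine p.1.2 (e.symm i) c fun h1 => ?_
    have h2 : (u (e.symm i) : ℕ) ≤ c := h1.1
    have h3 : (c : ℕ) < u (e.symm i) := hc
    omega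
  · have h1 : (u (e.symm i) : ℕ) ≤ m := by
      rw [← hc]
      have := c.2
      omega
    have h2 := p.2.1 (e.symm i) h1
    show IsUnit (coeff (c : ℕ) (p.1.1 (e.symm i)))
    rw [hc]
    exact h2

end jets

theorem strata : StrataStmt := by
  intro k _ σ _ R _ L χ f m hm ω hω
  classical
  have hX : FT ((FibK k σ ω m hω).app (Jet f Set.univ m ω)).F :=
    (FibK k σ ω m hω).app_FT (FT.jet Set.univ Set.finite_univ m ω)
  rw [stairs χ hX (cf f m ω hω (Fintype.equivFin σ)),
    ← ((Fintype.equivFin σ).arrowCongr (Equiv.refl (Fin (m + 2)))).sum_comp]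
  refine Fintype.sum_congr _ _ fun u => ?_
  exact χ.iso (FT.strat hX _ _) (strat_iso f m ω hω (Fintype.equivFin σ) u)

end Pool.Agent.Helper30_Simp.H70
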